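import Pool.Agent.Work.MP_15e198_al.Lower
import Mathlib.GroupTheory.Coset.Basic
import Mathlib.GroupTheory.GroupAction.Quotient
import Mathlib.Data.ZMod.Basic
import Mathlib.Data.Set.Card
import Mathlib.Order.ConditionallyCompleteLattice.Basic
import Mathlib.Order.Interval.Finset.Nat
import Mathlib.Order.Lattice.Nat
import Mathlib.Algebra.Group.TypeTags.Finite
import Mathlib.Data.Fintype.Pi
import Mathlib.Data.Fintype.BigOperators

/-! Upper bound: the rank of a subgroup generated by short elements, via the Schreier graph. -/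

set_option autoImplicit false

namespace Pool.Agent.Work.MP_15e198_al

open FreeGroup

/-- A free subset generating a subgroup which is generated by `S` has at most `|S|` elements. -/
theorem card_le_of_closure {G : Type*} [Group G] (X S : Finset G)
    (hX : Function.Injective (FreeGroup.lift (fun x : X => (x : G))))
    (hS : ∀ s ∈ S, s ∈ (FreeGroup.lift (fun x : X => (x : G))).range)
    (hgen : ∀ x ∈ X, x ∈ Subgroup.closure (S : Set G)) : X.card ≤ S.card := by
  classical
  set Φ := FreeGroup.lift (fun x : X => (x : G)) with hΦ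
  choose σ hσ using fun s : S => hS s.1 s.2
  let θ : (X → Multiplicative (ZMod 2)) → (S → Multiplicative (ZMod 2)) :=
    fun f s => FreeGroup.lift f (σ s)
  have hθ : Function.Injective θ := by
    intro f f' hff'
    have key : ∀ g ∈ Subgroup.closure (S : Set G), ∃ w, Φ w = g ∧
        FreeGroup.lift f w = FreeGroup.lift f' w := by
      intro g hg
      induction hg using Subgroup.closure_induction with
      | mem s hs => exact ⟨σ ⟨s, hs⟩, hσ _, congrFun hff' ⟨s, hs⟩⟩
      | one => exact ⟨1, by simp, by simp⟩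
      | mul a b _ _ ha hb =>
        obtain ⟨w, hw, hw'⟩ := ha
        obtain ⟨v, hv, hv'⟩ := hb
        exact ⟨w * v, by simp [hw, hv], by simp [hw', hv']⟩
      | inv a _ ha =>
        obtain ⟨w, hw, hw'⟩ := ha
        exact ⟨w⁻¹, by simp [hw], by simp [hw']⟩
    funext x
    obtain ⟨w, hw, hw'⟩ := key x (hgen x x.2)
    have : w = of x := hX (by rw [hw]; simp [hΦ])
    simpa [this] using hw'
  have h := Fintype.card_le_of_injective θ hθ
  simp only [Fintype.card_fun, Fintype.card_multiplicative, ZMod.card, Fintype.card_coe] at h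
  exact (Nat.pow_le_pow_iff_right (by norm_num)).mp h

section Count

variable {Q L : Type*} [Fintype L] (step : Q → L → Q) (iv : L → L) (d : Q → ℕ) (o : Q)
  (triv : Q → L → Prop)

/-- The abstract data of a Schreier graph with a geodesic spanning tree. -/
structure Geo : Prop where
  step_iv : ∀ q y, step (step q y) (iv y) = q
  iv_iv : ∀ y, iv (iv y) = y
  zero : ∀ q, d q = 0 → q = o
  le : ∀ q y, d (step q y) ≤ d q + 1
  down : ∀ q, d q ≠ 0 → ∃ y, d (step q y) + 1 = d q ∧ triv q y
  rev : ∀ q y, triv q y → triv (step q y) (iv y)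

variable {step iv d o triv}

theorem Geo.finite (h : Geo step iv d o triv) (k : ℕ) : {q | d q = k}.Finite := by
  induction k with
  | zero => exact (Set.finite_singleton o).subset fun q hq => h.zero q hq
  | succ k ih =>
    refine ((ih.prod (Set.finite_univ (α := L))).image fun e => step e.1 e.2).subset ?_
    intro q hq
    obtain ⟨y, hy, -⟩ := h.down q (by simp only [Set.mem_ofPred_eq] at hq; omega)
    refine ⟨(step q y, iv y), ⟨?_, trivial⟩, h.step_iv q y⟩
    simp only [Set.mem_ofPred_eq] at hq ⊢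
    omega

open Classical in
/-- level sets -/
noncomputable def Geo.lev (h : Geo step iv d o triv) (k : ℕ) : Finset Q := (h.finite k).toFinset

theorem Geo.mem_lev (h : Geo step iv d o triv) {k : ℕ} {q : Q} : q ∈ h.lev k ↔ d q = k := by
  simp [Geo.lev]

open Classical in
/-- non-tree directed edges starting at level `k` -/
noncomputable def Geo.nt (h : Geo step iv d o triv) (k : ℕ) : Finset (Q × L) :=
  (h.lev k ×ˢ Finset.univ).filter fun e => ¬ triv e.1 e.2

theorem Geo.mem_nt (h : Geo step iv d o triv) {k : ℕ} {e : Q × L} :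
    e ∈ h.nt k ↔ d e.1 = k ∧ ¬ triv e.1 e.2 := by
  simp [Geo.nt, h.mem_lev]

theorem Geo.count [Nonempty L] (h : Geo step iv d o triv) (k : ℕ) :
    (h.nt k).card + (h.lev (k + 1)).card + (if k = 0 then 0 else (h.lev k).card) ≤
      (h.lev k).card * Fintype.card L := by
  classical
  have hdn : ∀ q, ∃ y, d q ≠ 0 → d (step q y) + 1 = d q ∧ triv q y := by
    intro q
    by_cases hq : d q = 0
    · exact ⟨Classical.arbitrary L, fun h' => absurd hq h'⟩
    · obtain ⟨y, hy⟩ := h.down q hq
      exact ⟨y, fun _ => hy⟩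
  choose dn hdn using hdn
  let E : Finset (Q × L) := h.lev k ×ˢ Finset.univ
  let B : Finset (Q × L) := E.filter fun e => triv e.1 e.2 ∧ d (step e.1 e.2) = k + 1
  let C : Finset (Q × L) := E.filter fun e => triv e.1 e.2 ∧ d (step e.1 e.2) + 1 = k
  have hE : E.card = (h.lev k).card * Fintype.card L := by simp [E]
  have hB : (h.lev (k + 1)).card ≤ B.card := by
    refine Finset.card_le_card_of_injOn (fun q => (step q (dn q), iv (dn q))) ?_ ?_
    · intro q hq
      have hq' : d q = k + 1 := h.mem_lev.mp hq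
      obtain ⟨h1, h2⟩ := hdn q (by omega)
      simp only [B, E, Finset.coe_filter, Finset.mem_product, h.mem_lev, Finset.mem_univ,
        and_true, Set.mem_ofPred_eq, h.step_iv]
      exact ⟨by omega, h.rev _ _ h2, hq'⟩
    · intro q _ q' _ hqq'
      simp only [Prod.mk.injEq] at hqq'
      rw [← h.step_iv q (dn q), hqq'.1, hqq'.2, h.step_iv]
  have hC : (if k = 0 then 0 else (h.lev k).card) ≤ C.card := by
    split_ifs with hk
    · exact Nat.zero_le _
    · refine Finset.card_le_card_of_injOn (fun q => (q, dn q)) ?_ ?_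
      · intro q hq
        have hq' : d q = k := h.mem_lev.mp hq
        obtain ⟨h1, h2⟩ := hdn q (by omega)
        simp only [C, E, Finset.coe_filter, Finset.mem_product, h.mem_lev, Finset.mem_univ,
          and_true, Set.mem_ofPred_eq]
        exact ⟨hq', h2, by omega⟩
      · intro q _ q' _ hqq'
        simp only [Prod.mk.injEq] at hqq'
        exact hqq'.1
  have hAB : Disjoint (h.nt k) B := by
    rw [Finset.disjoint_left]
    intro e he he'
    exact (h.mem_nt.mp he).2 (Finset.mem_filter.mp he').2.1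
  have hABC : Disjoint (h.nt k ∪ B) C := by
    rw [Finset.disjoint_left]
    intro e he he'
    have h1 := (Finset.mem_filter.mp he').2
    rcases Finset.mem_union.mp he with he | he
    · exact (h.mem_nt.mp he).2 h1.1
    · have h2 := (Finset.mem_filter.mp he).2
      omega
  have hsub : h.nt k ∪ B ∪ C ⊆ E := by
    intro e he
    rcases Finset.mem_union.mp he with he | he
    · rcases Finset.mem_union.mp he with he | he
      · simp [E, h.mem_lev, (h.mem_nt.mp he).1]
      · exact (Finset.mem_filter.mp he).1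
    · exact (Finset.mem_filter.mp he).1
  have := Finset.card_le_card hsub
  rw [Finset.card_union_of_disjoint hABC, Finset.card_union_of_disjoint hAB] at this
  omega

theorem Geo.lev_zero (h : Geo step iv d o triv) : (h.lev 0).card ≤ 1 := by
  rw [Finset.card_le_one]
  intro a ha b hb
  rw [h.zero a (h.mem_lev.mp ha), h.zero b (h.mem_lev.mp hb)]

theorem Geo.kraft [Nonempty L] (h : Geo step iv d o triv) (b : ℕ) (hb : Fintype.card L = b + 1)
    (hb1 : 1 ≤ b) (k : ℕ) :
    ∑ j ∈ Finset.range (k + 1), (h.nt j).card + (h.lev (k + 1)).card ≤ (b + 1) * b ^ k := by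
  induction k with
  | zero =>
    have h1 := h.count 0
    have h2 := h.lev_zero
    rw [hb] at h1
    simp only [zero_add, Finset.range_one, Finset.sum_singleton, pow_zero, mul_one, if_true,
      add_zero] at h1 ⊢
    nlinarith
  | succ k ih =>
    have h1 := h.count (k + 1)
    rw [hb, if_neg (by omega)] at h1
    rw [Finset.sum_range_succ, pow_succ]
    set A := ∑ j ∈ Finset.range (k + 1), (h.nt j).card
    have h2 : A ≤ A * b := Nat.le_mul_of_pos_right _ hb1
    nlinarith

theorem Geo.nt_le [Nonempty L] (h : Geo step iv d o triv) (b : ℕ) (hb : Fintype.card L = b + 1)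
    (k : ℕ) (hk : k ≠ 0) : (h.nt k).card ≤ b * (h.lev k).card := by
  have h1 := h.count k
  rw [hb, if_neg hk] at h1
  nlinarith

open Classical in
/-- the short non-tree directed edges -/
noncomputable def Geo.short (h : Geo step iv d o triv) (n : ℕ) : Finset (Q × L) :=
  ((Finset.range (n + 1)).biUnion h.nt).filter fun e => d e.1 + d (step e.1 e.2) + 1 ≤ n

theorem Geo.mem_short (h : Geo step iv d o triv) {n : ℕ} {e : Q × L} :
    e ∈ h.short n ↔ ¬ triv e.1 e.2 ∧ d e.1 + d (step e.1 e.2) + 1 ≤ n := by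
  simp only [Geo.short, Finset.mem_filter, Finset.mem_biUnion, Finset.mem_range, h.mem_nt]
  constructor
  · rintro ⟨⟨k, -, -, h1⟩, h2⟩
    exact ⟨h1, h2⟩
  · rintro ⟨h1, h2⟩
    exact ⟨⟨d e.1, by omega, rfl, h1⟩, h2⟩

omit [Fintype L] in
theorem Geo.le' (h : Geo step iv d o triv) (q : Q) (y : L) : d q ≤ d (step q y) + 1 := by
  have := h.le (step q y) (iv y)
  rwa [h.step_iv] at this

theorem Geo.rev_mem_short (h : Geo step iv d o triv) {n : ℕ} {e : Q × L} (he : e ∈ h.short n) :
    (step e.1 e.2, iv e.2) ∈ h.short n := by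
  rw [h.mem_short] at he ⊢
  simp only [h.step_iv]
  refine ⟨fun h1 => he.1 ?_, by omega⟩
  have := h.rev _ _ h1
  rwa [h.step_iv, h.iv_iv] at this

theorem Geo.card_low (h : Geo step iv d o triv) (T : Finset (Q × L)) (m : ℕ)
    (hT : ∀ e ∈ T, ¬ triv e.1 e.2 ∧ d e.1 ≤ m) :
    T.card ≤ ∑ j ∈ Finset.range (m + 1), (h.nt j).card := by
  classical
  refine le_trans (Finset.card_le_card ?_) Finset.card_biUnion_le
  intro e he
  simp only [Finset.mem_biUnion, Finset.mem_range, h.mem_nt]
  exact ⟨d e.1, by have := (hT e he).2; omega, rfl, (hT e he).1⟩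

theorem Geo.short_odd [Nonempty L] (h : Geo step iv d o triv) (b : ℕ)
    (hb : Fintype.card L = b + 1) (hb1 : 1 ≤ b) (m : ℕ) :
    (h.short (2 * m + 1)).card ≤ (b + 1) * b ^ m := by
  have h1 := h.kraft b hb hb1 m
  have h2 := h.card_low (h.short (2 * m + 1)) m (by
    intro e he
    rw [h.mem_short] at he
    have := h.le' e.1 e.2
    exact ⟨he.1, by omega⟩)
  omega

theorem Geo.short_even [Nonempty L] (h : Geo step iv d o triv) (b : ℕ)
    (hb : Fintype.card L = b + 1) (hb1 : 1 ≤ b) (m : ℕ) :
    (h.short (2 * (m + 1))).card ≤ 2 * b ^ (m + 1) := by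
  classical
  have h1 := h.kraft b hb hb1 m
  let Lo := (h.short (2 * (m + 1))).filter fun e => d e.1 ≤ m
  let Hi := (h.short (2 * (m + 1))).filter fun e => ¬ d e.1 ≤ m
  have hsum : Lo.card + Hi.card = (h.short (2 * (m + 1))).card :=
    Finset.card_filter_add_card_filter_not _
  have h2 := h.card_low Lo m (by
    intro e he
    have := Finset.mem_filter.mp he
    exact ⟨(h.mem_short.mp this.1).1, this.2⟩)
  have h3 : Hi.card ≤ (h.nt (m + 1)).card := by
    refine Finset.card_le_card ?_
    intro e he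
    have h4 := Finset.mem_filter.mp he
    have h5 := h.mem_short.mp h4.1
    have h6 := h.le' e.1 e.2
    rw [h.mem_nt]
    exact ⟨by omega, h5.1⟩
  have h4 := h.nt_le b hb (m + 1) (by omega)
  have h5 : Hi.card ≤ Lo.card := by
    refine Finset.card_le_card_of_injOn (fun e => (step e.1 e.2, iv e.2)) ?_ ?_
    · intro e he
      have h4 := Finset.mem_filter.mp (Finset.mem_coe.mp he)
      have h5 := h.mem_short.mp h4.1
      refine Finset.mem_coe.mpr (Finset.mem_filter.mpr ⟨h.rev_mem_short h4.1, ?_⟩)
      simp only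
      omega
    · rintro ⟨q, y⟩ _ ⟨q', y'⟩ _ hqq'
      simp only [Prod.mk.injEq] at hqq' ⊢
      have hy : y = y' := by rw [← h.iv_iv y, hqq'.2, h.iv_iv]
      refine ⟨?_, hy⟩
      rw [← h.step_iv q y, hqq'.1, hqq'.2, h.step_iv]
  set A := ∑ j ∈ Finset.range (m + 1), (h.nt j).card
  set N := (h.lev (m + 1)).card
  set T := Hi.card
  obtain ⟨c, rfl⟩ : ∃ c, b = c + 1 := ⟨b - 1, by omega⟩
  have h6 : T ≤ A := by omega
  have h7 : T ≤ (c + 1) * N := by omega
  have h8 : (c + 1 + 1) * (A + T) ≤ (c + 1 + 1) * (2 * (c + 1) ^ (m + 1)) := by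
    have h9 : c * T ≤ c * A := Nat.mul_le_mul_left _ h6
    have h10 : 2 * (c + 1) * (A + N) ≤ 2 * (c + 1) * ((c + 1 + 1) * (c + 1) ^ m) :=
      Nat.mul_le_mul_left _ h1
    rw [pow_succ]
    nlinarith
  have h9 := Nat.le_of_mul_le_mul_left h8 (by omega)
  omega

end Count

section Schreier

universe u

variable {α : Type u} (H : Subgroup (FreeGroup α))

/-- depth of a coset -/
noncomputable def dep (q : FreeGroup α ⧸ H) : ℕ :=
  sInf {k | ∃ w : List (α × Bool), w.length = k ∧ ((mk w : FreeGroup α) : FreeGroup α ⧸ H) = q}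

/-- an edge of the Schreier graph -/
def stp (q : FreeGroup α ⧸ H) (y : α × Bool) : FreeGroup α ⧸ H := (mk [y] : FreeGroup α) • q

variable {H}

theorem dep_le (w : List (α × Bool)) :
    dep H ((mk w : FreeGroup α) : FreeGroup α ⧸ H) ≤ w.length :=
  Nat.sInf_le ⟨w, rfl, rfl⟩

theorem dep_spec (q : FreeGroup α ⧸ H) : ∃ w : List (α × Bool), w.length = dep H q ∧
    ((mk w : FreeGroup α) : FreeGroup α ⧸ H) = q := by
  have : {k | ∃ w : List (α × Bool), w.length = k ∧
      ((mk w : FreeGroup α) : FreeGroup α ⧸ H) = q}.Nonempty := by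
    obtain ⟨g, rfl⟩ := QuotientGroup.mk_surjective q
    obtain ⟨w⟩ := g
    exact ⟨w.length, w, rfl, rfl⟩
  exact Nat.sInf_mem this

theorem stp_mk (w : List (α × Bool)) (y : α × Bool) :
    stp H ((mk w : FreeGroup α) : FreeGroup α ⧸ H) y = ((mk (y :: w) : FreeGroup α) : _ ⧸ H) := by
  rw [stp, MulAction.Quotient.smul_mk, smul_eq_mul, mul_mk]
  rfl

theorem stp_linv (q : FreeGroup α ⧸ H) (y : α × Bool) : stp H (stp H q y) (linv y) = q := by
  rw [stp, stp, mk_linv, inv_smul_smul]

theorem dep_stp_le (q : FreeGroup α ⧸ H) (y : α × Bool) : dep H (stp H q y) ≤ dep H q + 1 := by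
  obtain ⟨w, hw, rfl⟩ := dep_spec q
  rw [stp_mk, ← hw]
  exact dep_le (y :: w)

theorem dep_zero (q : FreeGroup α ⧸ H) (hq : dep H q = 0) :
    q = ((1 : FreeGroup α) : FreeGroup α ⧸ H) := by
  obtain ⟨w, hw, rfl⟩ := dep_spec q
  rw [hq, List.length_eq_zero_iff] at hw
  rw [hw, one_eq_mk]

theorem dep_down (q : FreeGroup α ⧸ H) (hq : dep H q ≠ 0) :
    ∃ y, dep H (stp H q y) + 1 = dep H q := by
  obtain ⟨w, hw, rfl⟩ := dep_spec q
  rcases w with _ | ⟨y, w⟩
  · exact absurd hw.symm hq
  · refine ⟨linv y, ?_⟩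
    have h1 := dep_stp_le ((mk w : FreeGroup α) : FreeGroup α ⧸ H) y
    have h2 := dep_le (H := H) w
    rw [← stp_mk, stp_linv]
    rw [← stp_mk] at hw
    simp only [List.length_cons] at hw
    omega

theorem exists_transversal [Nonempty α] : ∃ t : FreeGroup α ⧸ H → FreeGroup α,
    (∀ q, (t q : FreeGroup α ⧸ H) = q) ∧ t ((1 : FreeGroup α) : FreeGroup α ⧸ H) = 1 ∧
      ∀ q, dep H q ≠ 0 → ∃ y, dep H (stp H q y) + 1 = dep H q ∧ t (stp H q y) = mk [y] * t q := by
  have hdn : ∀ q : FreeGroup α ⧸ H, ∃ y, dep H q ≠ 0 → dep H (stp H q y) + 1 = dep H q := by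
    intro q
    by_cases hq : dep H q = 0
    · exact ⟨Classical.arbitrary _, fun h' => absurd hq h'⟩
    · obtain ⟨y, hy⟩ := dep_down q hq
      exact ⟨y, fun _ => hy⟩
  choose dn hdn using hdn
  let T : ℕ → FreeGroup α ⧸ H → FreeGroup α := fun k =>
    Nat.rec (fun _ => 1) (fun _ f q => (mk [dn q])⁻¹ * f (stp H q (dn q))) k
  have hT0 : ∀ q, T 0 q = 1 := fun _ => rfl
  have hT1 : ∀ k q, T (k + 1) q = (mk [dn q])⁻¹ * T k (stp H q (dn q)) := fun _ _ => rfl
  have h1 : ∀ (k : ℕ) (q : FreeGroup α ⧸ H), dep H q = k →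
      (QuotientGroup.mk (T k q) : FreeGroup α ⧸ H) = q := by
    intro k
    induction k with
    | zero => intro q hq; rw [hT0, dep_zero q hq]
    | succ k ih =>
      intro q hq
      have h2 := hdn q (by omega)
      have h3 := ih (stp H q (dn q)) (by omega)
      rw [hT1, ← smul_eq_mul, ← MulAction.Quotient.smul_mk, h3, stp, inv_smul_smul]
  refine ⟨fun q => T (dep H q) q, fun q => h1 _ q rfl, ?_, ?_⟩
  · have : dep H ((1 : FreeGroup α) : FreeGroup α ⧸ H) = 0 := by
      have := dep_le (H := H) []
      rw [← one_eq_mk] at this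
      simpa using this
    simp only [this, hT0]
  · intro q hq
    refine ⟨dn q, hdn q hq, ?_⟩
    simp only
    rw [← hdn q hq, hT1, mul_inv_cancel_left]

/-- The main upper bound in terms of short non-tree edges. -/
theorem upper_aux [Fintype α] [DecidableEq α] [Nonempty α] (n : ℕ) (X : Finset (FreeGroup α))
    (hn : ∀ g ∈ X, norm g ≤ n)
    (hX : Function.Injective (FreeGroup.lift (fun x : X => (x : FreeGroup α)))) :
    ∃ (Q : Type u) (step : Q → α × Bool → Q) (d : Q → ℕ) (o : Q) (triv : Q → α × Bool → Prop)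
      (h : Geo step linv d o triv), 2 * X.card ≤ (h.short n).card := by
  classical
  set H := (FreeGroup.lift (fun x : X => (x : FreeGroup α))).range with hH
  obtain ⟨t, ht1, ht2, ht3⟩ := exists_transversal (H := H)
  let s : (FreeGroup α ⧸ H) × (α × Bool) → FreeGroup α :=
    fun e => (t (stp H e.1 e.2))⁻¹ * (mk [e.2] * t e.1)
  have hsH : ∀ e, s e ∈ H := by
    intro e
    rw [← QuotientGroup.eq, ht1, ← smul_eq_mul, ← MulAction.Quotient.smul_mk, ht1]
    rfl
  have hsrev : ∀ q y, s (stp H q y, linv y) = (s (q, y))⁻¹ := by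
    intro q y
    simp only [s, stp_linv, mk_linv]
    group
  have hgeo : Geo (stp H) linv (dep H) ((1 : FreeGroup α) : FreeGroup α ⧸ H)
      (fun q y => s (q, y) = 1) :=
    { step_iv := stp_linv
      iv_iv := linv_linv
      zero := dep_zero
      le := dep_stp_le
      down := by
        intro q hq
        obtain ⟨y, hy1, hy2⟩ := ht3 q hq
        exact ⟨y, hy1, by simp only [s, hy2, inv_mul_cancel]⟩
      rev := by
        intro q y h
        rw [hsrev, h, inv_one] }
  refine ⟨_, _, _, _, _, hgeo, ?_⟩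
  let Dp := (hgeo.short n).filter fun e => e.2.2 = true
  let Dm := (hgeo.short n).filter fun e => ¬ e.2.2 = true
  have hsum : Dp.card + Dm.card = (hgeo.short n).card := Finset.card_filter_add_card_filter_not _
  have hpm : Dp.card ≤ Dm.card := by
    refine Finset.card_le_card_of_injOn (fun e => (stp H e.1 e.2, linv e.2)) ?_ ?_
    · intro e he
      have h4 := Finset.mem_filter.mp (Finset.mem_coe.mp he)
      refine Finset.mem_coe.mpr (Finset.mem_filter.mpr ⟨hgeo.rev_mem_short h4.1, ?_⟩)
      simp [linv, h4.2]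
    · rintro ⟨q, y⟩ _ ⟨q', y'⟩ _ hqq'
      simp only [Prod.mk.injEq] at hqq' ⊢
      have hy : y = y' := by rw [← linv_linv y, hqq'.2, linv_linv]
      refine ⟨?_, hy⟩
      rw [← stp_linv q y, hqq'.1, hqq'.2, stp_linv]
  let S : Finset (FreeGroup α) := Dp.image s
  have hS : S.card ≤ Dp.card := Finset.card_image_le
  have hedge : ∀ q y, dep H q + dep H (stp H q y) + 1 ≤ n →
      s (q, y) ∈ Subgroup.closure (S : Set (FreeGroup α)) := by
    intro q y hqy
    by_cases h1 : s (q, y) = 1
    · rw [h1]; exact one_mem _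
    · have h2 : (q, y) ∈ hgeo.short n := hgeo.mem_short.mpr ⟨h1, hqy⟩
      by_cases h3 : y.2 = true
      · exact Subgroup.subset_closure (Finset.mem_coe.mpr
          (Finset.mem_image_of_mem s (Finset.mem_filter.mpr ⟨h2, h3⟩)))
      · have h4 : s (stp H q y, linv y) ∈ Subgroup.closure (S : Set (FreeGroup α)) :=
          Subgroup.subset_closure (Finset.mem_coe.mpr
            (Finset.mem_image_of_mem s (Finset.mem_filter.mpr ⟨hgeo.rev_mem_short h2, by
              simpa [linv] using h3⟩)))
        rw [hsrev] at h4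
        exact (Subgroup.inv_mem_iff _).mp h4
  have hpath : ∀ (w : List (α × Bool)) (j : ℕ),
      dep H ((mk w : FreeGroup α) : FreeGroup α ⧸ H) ≤ j → j + w.length ≤ n →
      (t ((mk w : FreeGroup α) : FreeGroup α ⧸ H))⁻¹ * mk w ∈
        Subgroup.closure (S : Set (FreeGroup α)) := by
    intro w
    induction w with
    | nil =>
      intro j _ _
      rw [← one_eq_mk, ht2]
      simp
    | cons y w ih =>
      intro j h1 h2
      simp only [List.length_cons] at h2
      rw [← stp_mk] at h1 ⊢
      have h3 := hgeo.le' ((mk w : FreeGroup α) : FreeGroup α ⧸ H) y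
      have h4 := ih (j + 1) (by omega) (by omega)
      have h5 := dep_le (H := H) w
      have h6 := hedge ((mk w : FreeGroup α) : FreeGroup α ⧸ H) y (by omega)
      have h7 := mul_mem h6 h4
      have h8 : (mk (y :: w) : FreeGroup α) = mk [y] * mk w := by rw [mul_mk]; rfl
      rw [h8]
      simp only [s] at h7
      convert h7 using 1
      group
  have hcard := card_le_of_closure X S hX (by
      intro g hg
      obtain ⟨e, -, rfl⟩ := Finset.mem_image.mp hg
      exact hsH e) (by
      intro x hx
      have hxH : x ∈ H := ⟨of ⟨x, hx⟩, by simp⟩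
      have h1 : ((x : FreeGroup α) : FreeGroup α ⧸ H) = ((1 : FreeGroup α) : FreeGroup α ⧸ H) := by
        rw [QuotientGroup.eq]
        simpa using hxH
      have h2 : dep H ((1 : FreeGroup α) : FreeGroup α ⧸ H) = 0 := by
        have := dep_le (H := H) []
        rw [← one_eq_mk] at this
        simpa using this
      have h3 := hpath x.toWord 0 (by rw [mk_toWord, h1, h2]) (by
        have := hn x hx
        simpa [norm] using this)
      rw [mk_toWord, h1, ht2] at h3
      simpa using h3)
  omega

theorem upper_odd [Fintype α] [DecidableEq α] [Nonempty α] (m : ℕ) (X : Finset (FreeGroup α))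
    (hn : ∀ g ∈ X, norm g ≤ 2 * m + 1)
    (hX : Function.Injective (FreeGroup.lift (fun x : X => (x : FreeGroup α)))) :
    X.card ≤ Fintype.card α * (2 * Fintype.card α - 1) ^ m := by
  obtain ⟨Q, step, d, o, triv, h, hle⟩ := upper_aux _ X hn hX
  have hpos : 0 < Fintype.card α := Fintype.card_pos
  have := h.short_odd (2 * Fintype.card α - 1) (by simp; omega) (by omega) m
  rw [show 2 * Fintype.card α - 1 + 1 = 2 * Fintype.card α by omega, mul_assoc] at this
  omega

theorem upper_even [Fintype α] [DecidableEq α] [Nonempty α] (m : ℕ) (X : Finset (FreeGroup α))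
    (hn : ∀ g ∈ X, norm g ≤ 2 * (m + 1))
    (hX : Function.Injective (FreeGroup.lift (fun x : X => (x : FreeGroup α)))) :
    X.card ≤ (2 * Fintype.card α - 1) ^ (m + 1) := by
  obtain ⟨Q, step, d, o, triv, h, hle⟩ := upper_aux _ X hn hX
  have hpos : 0 < Fintype.card α := Fintype.card_pos
  have := h.short_even (2 * Fintype.card α - 1) (by simp; omega) (by omega) m
  omega

theorem upper_zero [Fintype α] [DecidableEq α] [Nonempty α] (X : Finset (FreeGroup α))
    (hn : ∀ g ∈ X, norm g ≤ 0)
    (hX : Function.Injective (FreeGroup.lift (fun x : X => (x : FreeGroup α)))) :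
    X.card ≤ 0 := by
  obtain ⟨Q, step, d, o, triv, h, hle⟩ := upper_aux _ X hn hX
  have : (h.short 0).card = 0 := by
    rw [Finset.card_eq_zero, Finset.eq_empty_iff_forall_notMem]
    intro e he
    have := (h.mem_short.mp he).2
    omega
  omega

end Schreier

end Pool.Agent.Work.MP_15e198_al
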