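import Mathlib.GroupTheory.FreeGroup.Reduce
import Mathlib.Data.Fintype.Prod
import Mathlib.Data.Fintype.EquivFin
import Mathlib.Data.Finset.Card
import Mathlib.Algebra.BigOperators.Group.Finset.Basic
import Mathlib.Algebra.Order.BigOperators.Group.Finset
import Mathlib.Tactic.Ring
import Mathlib.Tactic.Linarith
import Mathlib.Tactic.Group

/-! Lower bound: large free subsets of balls in a free group, via ping-pong on cones. -/

set_option autoImplicit false

namespace Pool.Agent.Work.MP_15e198_al

open FreeGroup

/-- Ping-pong with a base point. -/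
theorem pingpong {ι G β : Type*} [Group G] [MulAction G β] (a : ι → G) (Z : ι × Bool → Set β)
    (p : β) (hp : ∀ s, p ∉ Z s) (hdisj : ∀ s t x, x ∈ Z s → x ∈ Z t → s = t)
    (hT : ∀ i x, x ∉ Z (i, false) → a i • x ∈ Z (i, true))
    (hF : ∀ i x, x ∉ Z (i, true) → (a i)⁻¹ • x ∈ Z (i, false)) :
    Function.Injective (FreeGroup.lift a) := by
  classical
  have step : ∀ (s : ι × Bool) (x : β), x ∉ Z (s.1, !s.2) →
      (cond s.2 (a s.1) (a s.1)⁻¹) • x ∈ Z s := by
    rintro ⟨i, b⟩ x hx
    cases b
    · exact hF i x hx
    · exact hT i x hx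
  have key : ∀ (L : List (ι × Bool)) (s : ι × Bool), IsReduced (s :: L) →
      FreeGroup.lift a (mk (s :: L)) • p ∈ Z s := by
    intro L
    induction L with
    | nil =>
      intro s _
      have := step s p (hp _)
      simpa using this
    | cons t L ih =>
      intro s hs
      rw [isReduced_cons_cons] at hs
      have h1 := ih t hs.2
      have h2 : FreeGroup.lift a (mk (t :: L)) • p ∉ Z (s.1, !s.2) := by
        intro h
        have h3 := hdisj _ _ _ h1 h
        have h4 := hs.1 (by rw [h3])
        rw [h3] at h4
        simp at h4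
      have h5 := step s _ h2
      rw [← mul_smul] at h5
      have h6 : FreeGroup.lift a (mk (s :: t :: L)) =
          (cond s.2 (a s.1) (a s.1)⁻¹) * FreeGroup.lift a (mk (t :: L)) := by
        simp only [lift_mk, List.map_cons, List.prod_cons]
      rw [h6]
      exact h5
  rw [injective_iff_map_eq_one]
  intro g hg
  by_contra hne
  have h1 : g.toWord ≠ [] := fun h => hne (toWord_eq_nil_iff.mp h)
  obtain ⟨s, L, hL⟩ := List.exists_cons_of_ne_nil h1
  have h2 : IsReduced (s :: L) := hL ▸ isReduced_toWord
  have h3 := key L s h2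
  rw [← hL, mk_toWord, hg, one_smul] at h3
  exact hp s h3

variable {α : Type*} [DecidableEq α]

/-- The inverse letter. -/
def linv (z : α × Bool) : α × Bool := (z.1, !z.2)

omit [DecidableEq α] in
@[simp] theorem linv_linv (z : α × Bool) : linv (linv z) = z := by simp [linv]

omit [DecidableEq α] in
theorem mk_linv (z : α × Bool) : (mk [linv z] : FreeGroup α) = (mk [z])⁻¹ := by
  rw [inv_mk]; simp [invRev, linv]

omit [DecidableEq α] in
theorem isReduced_append_singleton_append {U W : List (α × Bool)} {z : α × Bool}
    (h1 : IsReduced (U ++ [z])) (h2 : IsReduced (z :: W)) : IsReduced (U ++ z :: W) := by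
  have := IsReduced.append_overlap (L₁ := U) (L₂ := [z]) (L₃ := W) h1 h2 (by simp)
  simpa using this

/-- The basic cone computation. -/
theorem cone_step (U V : List (α × Bool)) (z : α × Bool) (hU : IsReduced (U ++ [z]))
    (hV : IsReduced (V ++ [linv z])) (g : FreeGroup α) (hg : ¬ (V ++ [linv z]) <+: g.toWord) :
    (U ++ [z]) <+: ((mk (U ++ [z]) * (mk V)⁻¹) * g).toWord := by
  set h : FreeGroup α := (mk V)⁻¹ * g with hh
  have hred : IsReduced (z :: h.toWord) := by
    rcases hw : h.toWord with _ | ⟨y, W⟩
    · exact IsReduced.singleton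
    · have hr : IsReduced (y :: W) := hw ▸ isReduced_toWord
      rw [isReduced_cons_cons]
      refine ⟨?_, hr⟩
      intro h1
      by_contra h2
      have hy : y = linv z := by
        rcases y with ⟨y1, y2⟩
        rcases z with ⟨z1, z2⟩
        simp only [linv, Prod.mk.injEq] at h1 h2 ⊢
        refine ⟨h1.symm, ?_⟩
        cases y2 <;> cases z2 <;> simp_all
      apply hg
      have h3 : g = mk (V ++ y :: W) := by
        rw [← mul_mk, ← hw, mk_toWord, hh, mul_inv_cancel_left]
      have h4 : IsReduced (V ++ y :: W) :=
        isReduced_append_singleton_append (hy ▸ hV) hr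
      rw [h3, toWord_mk, h4.reduce_eq, ← hy]
      exact ⟨W, by simp⟩
  have h5 : IsReduced (U ++ z :: h.toWord) := isReduced_append_singleton_append hU hred
  have h6 : (mk (U ++ [z]) * (mk V)⁻¹) * g = mk (U ++ z :: h.toWord) := by
    rw [mul_assoc, ← hh]
    conv_lhs => rw [← mk_toWord (x := h)]
    rw [mul_mk]; simp
  rw [h6, toWord_mk, h5.reduce_eq]
  exact ⟨h.toWord, by simp⟩

/-- A family of words `U z V⁻¹` with incomparable initial segments is free. -/
theorem free_of_incomparable {ι : Type*} (U V : ι → List (α × Bool)) (z : ι → α × Bool)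
    (P : ι × Bool → List (α × Bool)) (hPt : ∀ i, P (i, true) = U i ++ [z i])
    (hPf : ∀ i, P (i, false) = V i ++ [linv (z i)]) (hred : ∀ s, IsReduced (P s))
    (hinc : ∀ s t, P s <+: P t → s = t) :
    Function.Injective (FreeGroup.lift fun i => (mk (U i ++ [z i]) * (mk (V i))⁻¹ : FreeGroup α)) := by
  refine pingpong _ (fun s => {g : FreeGroup α | P s <+: g.toWord}) 1 ?_ ?_ ?_ ?_
  · rintro ⟨i, b⟩ h
    cases b
    · simp [hPf] at h
    · simp [hPt] at h
  · intro s t x hs ht
    rcases List.prefix_or_prefix_of_prefix hs ht with h | h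
    · exact hinc _ _ h
    · exact (hinc _ _ h).symm
  · intro i x hx
    have := cone_step (U i) (V i) (z i) (hPt i ▸ hred (i, true)) (hPf i ▸ hred (i, false)) x
      (hPf i ▸ hx)
    simpa [hPt] using this
  · intro i x hx
    have := cone_step (V i) (U i) (linv (z i)) (hPf i ▸ hred (i, false))
      (by rw [linv_linv]; exact hPt i ▸ hred (i, true)) x
      (by rw [linv_linv]; exact hPt i ▸ hx)
    have h2 : (mk (U i ++ [z i]) * (mk (V i))⁻¹ : FreeGroup α)⁻¹ =
        mk (V i ++ [linv (z i)]) * (mk (U i))⁻¹ := by
      rw [← mul_mk, ← mul_mk, mk_linv]; group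
    change P (i, false) <+: _
    rw [h2, hPf]
    exact this

/-- From a free family indexed by a finite type to a free finite subset. -/
theorem exists_finset_of_free {ι G : Type*} [Fintype ι] [Group G] (a : ι → G)
    (ha : Function.Injective (FreeGroup.lift a)) :
    ∃ X : Finset G, X.card = Fintype.card ι ∧ (∀ g ∈ X, ∃ i, a i = g) ∧
      Function.Injective (FreeGroup.lift (fun x : X => (x : G))) := by
  classical
  have hinj : Function.Injective a := by
    intro i j hij
    have : FreeGroup.lift a (of i) = FreeGroup.lift a (of j) := by simpa using hij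
    exact of_injective (ha this)
  refine ⟨Finset.univ.image a, ?_, ?_, ?_⟩
  · rw [Finset.card_image_of_injective _ hinj, Finset.card_univ]
  · intro g hg
    simpa using hg
  · have hx : ∀ x : (Finset.univ.image a : Finset G), ∃ i, a i = x := by
      intro x
      obtain ⟨i, -, hi⟩ := Finset.mem_image.mp x.2
      exact ⟨i, hi⟩
    choose f hf using hx
    have hfi : Function.Injective f := by
      intro x y hxy
      apply Subtype.ext
      rw [← hf x, ← hf y, hxy]
    have : FreeGroup.lift (fun x : (Finset.univ.image a : Finset G) => (x : G)) =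
        (FreeGroup.lift a).comp (FreeGroup.map f) := by
      ext x
      simp [hf]
    rw [this, MonoidHom.coe_comp]
    exact ha.comp (map_injective hfi)

variable [Fintype α]

/-- There are at least `(2r-1)^k` reduced words of length `k+1` ending in a given letter. -/
theorem exists_words (k : ℕ) : ∀ y : α × Bool, ∃ S : Finset (List (α × Bool)),
    S.card = (2 * Fintype.card α - 1) ^ k ∧ ∀ U ∈ S, U.length = k ∧ IsReduced (U ++ [y]) := by
  induction k with
  | zero =>
    intro y
    exact ⟨{[]}, by simp, by simp⟩
  | succ k ih =>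
    intro y
    choose S hS1 hS2 using ih
    refine ⟨(Finset.univ.erase (linv y)).biUnion fun x => (S x).image (· ++ [x]), ?_, ?_⟩
    · rw [Finset.card_biUnion]
      · have : ∀ x ∈ Finset.univ.erase (linv y), ((S x).image (· ++ [x])).card =
            (2 * Fintype.card α - 1) ^ k := by
          intro x _
          rw [Finset.card_image_of_injective _ (List.append_left_injective _), hS1]
        rw [Finset.sum_congr rfl this]
        simp [pow_succ, mul_comm]
      · intro x _ x' _ hxx'
        simp only [Function.onFun]
        rw [Finset.disjoint_left]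
        intro w h1 h2
        simp only [Finset.mem_image] at h1 h2
        obtain ⟨u, _, rfl⟩ := h1
        obtain ⟨u', _, h⟩ := h2
        have := List.append_inj_right' h rfl
        simp at this
        exact hxx' this.symm
    · intro U hU
      simp only [Finset.mem_biUnion, Finset.mem_erase, Finset.mem_image] at hU
      obtain ⟨x, ⟨hx, _⟩, u, hu, rfl⟩ := hU
      refine ⟨by simp [(hS2 x u hu).1], ?_⟩
      have h1 : IsReduced (x :: [y]) := by
        rw [isReduced_cons_cons]
        refine ⟨?_, IsReduced.singleton⟩
        intro h1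
        by_contra h2
        apply hx
        rcases y with ⟨y1, y2⟩
        rcases x with ⟨x1, x2⟩
        simp only [linv, Prod.mk.injEq] at h1 h2 ⊢
        refine ⟨h1, ?_⟩
        cases y2 <;> cases x2 <;> simp_all
      have := isReduced_append_singleton_append (hS2 x u hu).2 h1
      simpa using this

theorem exists_words' (k : ℕ) : ∃ W : (α × Bool) → Fin ((2 * Fintype.card α - 1) ^ k) →
    List (α × Bool), (∀ y, Function.Injective (W y)) ∧ (∀ y j, (W y j).length = k) ∧
      ∀ y j, IsReduced (W y j ++ [y]) := by
  choose S hS1 hS2 using exists_words (α := α) k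
  refine ⟨fun y j => ((Finset.equivFinOfCardEq (hS1 y)).symm j : List (α × Bool)), ?_, ?_, ?_⟩
  · intro y j j' h
    exact (Finset.equivFinOfCardEq (hS1 y)).symm.injective (Subtype.ext h)
  · intro y j
    exact (hS2 y _ ((Finset.equivFinOfCardEq (hS1 y)).symm j).2).1
  · intro y j
    exact (hS2 y _ ((Finset.equivFinOfCardEq (hS1 y)).symm j).2).2

omit [Fintype α] in
theorem norm_gen_le (U V : List (α × Bool)) (z : α × Bool) :
    norm (mk (U ++ [z]) * (mk V)⁻¹ : FreeGroup α) ≤ U.length + 1 + V.length := by
  refine (norm_mul_le _ _).trans ?_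
  rw [norm_inv_eq]
  have h1 := norm_mk_le (L₁ := U ++ [z])
  have h2 := norm_mk_le (L₁ := V)
  simp only [List.length_append, List.length_singleton] at h1
  omega

theorem lower_odd (m : ℕ) : ∃ X : Finset (FreeGroup α),
    X.card = Fintype.card α * (2 * Fintype.card α - 1) ^ m ∧ (∀ g ∈ X, norm g ≤ 2 * m + 1) ∧
      Function.Injective (FreeGroup.lift (fun x : X => (x : FreeGroup α))) := by
  obtain ⟨W, hW1, hW2, hW3⟩ := exists_words' (α := α) m
  have h := free_of_incomparable (ι := α × Fin ((2 * Fintype.card α - 1) ^ m))
    (fun i => W (i.1, true) i.2) (fun i => W (i.1, false) i.2) (fun i => (i.1, true))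
    (fun s => W (s.1.1, s.2) s.1.2 ++ [(s.1.1, s.2)]) (fun i => rfl) (fun i => rfl)
    (fun s => hW3 _ _) (by
      rintro ⟨⟨x, j⟩, b⟩ ⟨⟨x', j'⟩, b'⟩ h
      have h1 := h.eq_of_length (by simp [hW2])
      have h2 := List.append_inj_right' h1 rfl
      have h3 := List.append_inj_left' h1 rfl
      simp only [List.cons.injEq, Prod.mk.injEq, and_true] at h2
      obtain ⟨rfl, rfl⟩ := h2
      have h4 : j = j' := hW1 _ h3
      rw [h4])
  obtain ⟨X, hX1, hX2, hX3⟩ := exists_finset_of_free _ h
  refine ⟨X, by simpa using hX1, ?_, hX3⟩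
  intro g hg
  obtain ⟨i, rfl⟩ := hX2 g hg
  refine (norm_gen_le _ _ _).trans ?_
  simp only [hW2]
  omega

theorem lower_even [Nonempty α] (m : ℕ) : ∃ X : Finset (FreeGroup α),
    X.card = (2 * Fintype.card α - 1) ^ (m + 1) ∧ (∀ g ∈ X, norm g ≤ 2 * (m + 1)) ∧
      Function.Injective (FreeGroup.lift (fun x : X => (x : FreeGroup α))) := by
  obtain ⟨W, hW1, hW2, hW3⟩ := exists_words' (α := α) m
  obtain ⟨x0⟩ := ‹Nonempty α›
  let y0 : α × Bool := (x0, true)
  have h := free_of_incomparable
    (ι := {y : α × Bool // y ≠ y0} × Fin ((2 * Fintype.card α - 1) ^ m))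
    (fun i => W y0 i.2 ++ [y0]) (fun i => W i.1.1 i.2) (fun i => linv i.1.1)
    (fun s => cond s.2 (W y0 s.1.2 ++ [y0] ++ [linv s.1.1.1]) (W s.1.1.1 s.1.2 ++ [s.1.1.1]))
    (fun i => rfl) (fun i => by simp)
    (by
      rintro ⟨⟨⟨y, hy⟩, j⟩, b⟩
      cases b
      · exact hW3 _ _
      · have h1 : IsReduced (y0 :: [linv y]) := by
          rw [isReduced_cons_cons]
          refine ⟨?_, IsReduced.singleton⟩
          intro h1
          by_contra h2
          apply hy
          rcases y with ⟨y1, y2⟩
          simp only [linv, Prod.mk.injEq, y0] at h1 h2 ⊢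
          refine ⟨h1.symm, ?_⟩
          cases y2 <;> simp_all
        have := isReduced_append_singleton_append (hW3 y0 j) h1
        simpa using this)
    (by
      rintro ⟨⟨⟨y, hy⟩, j⟩, b⟩ ⟨⟨⟨y', hy'⟩, j'⟩, b'⟩ h
      cases b <;> cases b'
      · have h1 := h.eq_of_length (by simp [hW2])
        simp only [cond_false] at h1
        have h2 := List.append_inj_right' h1 rfl
        have h3 := List.append_inj_left' h1 rfl
        simp only [List.cons.injEq, and_true] at h2
        subst h2
        rw [hW1 _ h3]
      · exfalso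
        simp only [cond_false, cond_true] at h
        have h1 : W y j ++ [y] <+: W y0 j' ++ [y0] :=
          List.prefix_of_prefix_length_le h (List.prefix_append _ _) (by simp [hW2])
        have h2 := h1.eq_of_length (by simp [hW2])
        have h3 := List.append_inj_right' h2 rfl
        simp only [List.cons.injEq, and_true] at h3
        exact hy h3
      · exfalso
        have := h.length_le
        simp [hW2] at this
      · have h1 := h.eq_of_length (by simp [hW2])
        simp only [cond_true] at h1
        have h2 := List.append_inj_right' h1 rfl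
        have h3 := List.append_inj_left' h1 rfl
        have h4 := List.append_inj_left' h3 rfl
        simp only [List.cons.injEq, and_true] at h2
        have h5 : y = y' := by rw [← linv_linv y, h2, linv_linv]
        subst h5
        rw [hW1 _ h4])
  obtain ⟨X, hX1, hX2, hX3⟩ := exists_finset_of_free _ h
  refine ⟨X, ?_, ?_, hX3⟩
  · rw [hX1]
    simp [pow_succ, mul_comm]
  · intro g hg
    obtain ⟨i, rfl⟩ := hX2 g hg
    refine (norm_gen_le _ _ _).trans ?_
    simp only [List.length_append, hW2, List.length_singleton]
    omega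

end Pool.Agent.Work.MP_15e198_al
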